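import Pool.Agent.Helper8.RK.FIXG

/-! Packet A1K of the project RK. -/

open Complex Metric Set Filter Topology
open scoped ContDiff ComplexConjugate Matrix ComplexOrder

namespace Pool.Agent.Helper8.RK

open Pool.Agent.Helper95.Lin Pool.Agent.Helper10.SP Pool.Agent.Helper95.RK Pool.Agent.Helper45.RK
open Pool.Agent.Helper45.LinK (CE S_UNIP)

/-- The continuous linear map of a matrix. -/
noncomputable def mL {k : ℕ} (A : Matrix (Fin k) (Fin k) ℂ) : CE k :=
  LinearMap.toContinuousLinearMap (Matrix.toLin' A)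

theorem mL_apply {k : ℕ} (A : Matrix (Fin k) (Fin k) ℂ) (v : Cn k) : mL A v = A *ᵥ v := rfl

theorem mL_pow {k : ℕ} (A : Matrix (Fin k) (Fin k) ℂ) (n : ℕ) : mL A ^ n = mL (A ^ n) := by
  induction n with
  | zero =>
    ext v : 1
    rw [pow_zero, pow_zero, mL_apply, Matrix.one_mulVec]
    rfl
  | succ n ih =>
    ext v : 1
    rw [pow_succ, pow_succ, ih, mL_apply, ← Matrix.mulVec_mulVec]
    rfl

theorem mL_trace {k : ℕ} (A : Matrix (Fin k) (Fin k) ℂ) :
    LinearMap.trace ℂ (Cn k) (mL A : Cn k →ₗ[ℂ] Cn k) = A.trace := by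
  have h1 : (mL A : Cn k →ₗ[ℂ] Cn k) = Matrix.toLin' A := rfl
  rw [h1, Matrix.trace_toLin'_eq]

theorem mL_eq_one {k : ℕ} {A : Matrix (Fin k) (Fin k) ℂ} (h : mL A = 1) : A = 1 := by
  have h1 : Matrix.toLin' A = Matrix.toLin' (1 : Matrix (Fin k) (Fin k) ℂ) := by
    rw [Matrix.toLin'_one]
    have h2 : (mL A : Cn k →ₗ[ℂ] Cn k) = ((1 : CE k) : Cn k →ₗ[ℂ] Cn k) := by rw [h]
    exact h2
  exact Matrix.toLin'.injective h1

theorem a1k (hUNIP : S_UNIP) : S_A1K := by
  intro b k N c R P Φ Hf C hF i t ht z₁ hz₁ h1 z hz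
  obtain ⟨hbig, -, -, -, hpow⟩ := fixg c R P Φ Hf C hF i
  have hC0 : 0 ≤ C := zero_le_one.trans hF.Cge
  have hb : ∀ y ∈ ball (c i) 4, ‖(t.A y).trace‖ ≤ k ∧ ((t.A y).trace = k → t.A y = 1) := by
    intro y hy
    have h2 := hUNIP (mL (t.A y)) C (fun n => by
      obtain ⟨s, hs, hsA⟩ := hpow t ht n
      have h3 := (hF.abd i s (hbig s hs) y hy).1
      rw [hsA y hy] at h3
      rw [mL_pow]
      refine ContinuousLinearMap.opNorm_le_bound _ hC0 fun v => ?_
      rw [mL_apply]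
      exact h3 v)
    rw [mL_trace] at h2
    exact ⟨h2.1, fun h3 => mL_eq_one (h2.2 h3)⟩
  obtain ⟨-, -, ⟨-, htA, -⟩, -⟩ := hF.holo _ _ ht.1
  have hd : DifferentiableOn ℂ (fun y => (t.A y).trace) (ball (c i) 4) := by
    simp only [Matrix.trace, Matrix.diag]
    exact DifferentiableOn.fun_sum fun r _ => htA r r
  have hf0 : (t.A z₁).trace = k := by
    rw [h1, Matrix.trace_one, Fintype.card_fin]
  have hmax : IsMaxOn (norm ∘ fun y => (t.A y).trace) (ball (c i) 4) z₁ := by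
    intro x hx
    simp only [Function.comp_apply, mem_ofPred_eq]
    rw [hf0]
    simpa using (hb x hx).1
  have heq := Complex.eqOn_of_isPreconnected_of_isMaxOn_norm (convex_ball (c i) 4).isPreconnected
    isOpen_ball hd hz₁ hmax
  have h2 := heq hz
  simp only [Function.const_apply] at h2
  exact (hb z hz).2 (h2.trans hf0)

end Pool.Agent.Helper8.RK
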