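import Pool.Agent.Helper45.RK.GoalsJ
import Pool.Agent.Helper35.SP.PAX

/-! Packet FIXG of the project RK. -/

open Complex Metric Set Filter Topology
open scoped ContDiff ComplexConjugate Matrix ComplexOrder

namespace Pool.Agent.Helper8.RK

open Pool.Agent.Helper95.Lin Pool.Agent.Helper10.SP Pool.Agent.Helper95.RK Pool.Agent.Helper45.RK

section

variable {b k N : ℕ} {c : Fin N → Cn b} {R : ℝ} {P : Set (Cn b) → TriK b k → Prop} {Φ : Cn b → ℝ}
  {Hf : Cn b → Matrix (Fin k) (Fin k) ℂ} {C : ℝ}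

theorem ball4_sub (hF : AFolK c R P Φ Hf C) (i : Fin N) : ball (c i) 4 ⊆ Bd c R := by
  have h1 := hF.Rge
  have h2 := hF.Cge
  exact (ball_subset_ball (by linarith)).trans (subset_iUnion (fun j => ball (c j) R) i)

theorem ball2_sub (c : Fin N → Cn b) (i : Fin N) : ball (c i) (2 : ℝ) ⊆ Bd c 2 :=
  subset_iUnion (fun j => ball (c j) (2 : ℝ)) i

theorem diff_mul {U : Set (Cn b)} {A B : Cn b → Matrix (Fin k) (Fin k) ℂ}
    (hA : ∀ i j, DifferentiableOn ℂ (fun z => A z i j) U)
    (hB : ∀ i j, DifferentiableOn ℂ (fun z => B z i j) U) (p q : Fin k) :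
    DifferentiableOn ℂ (fun z => (A z * B z) p q) U := by
  simp only [Matrix.mul_apply]
  exact DifferentiableOn.fun_sum fun r _ => (hA p r).mul (hB r q)

theorem diff_mulVec {U : Set (Cn b)} {A : Cn b → Matrix (Fin k) (Fin k) ℂ} {v : Cn b → Cn k}
    (hA : ∀ i j, DifferentiableOn ℂ (fun z => A z i j) U) (hv : DifferentiableOn ℂ v U) :
    DifferentiableOn ℂ (fun z => A z *ᵥ v z) U := by
  rw [differentiableOn_pi]
  intro p
  simp only [Matrix.mulVec, dotProduct]
  exact DifferentiableOn.fun_sum fun r _ => (hA p r).mul ((differentiableOn_pi.1 hv) r)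

theorem fix_comp (hF : AFolK c R P Φ Hf C) {i : Fin N} {t s : TriK b k} (ht : FixK c P i t)
    (hs : FixK c P i s) : FixK c P i (t.comp s) := by
  refine ⟨hF.comp _ _ _ t s ht.1 hs.1 isOpen_ball subset_rfl ?_, ?_⟩
  · intro z hz
    rw [hs.2 z hz]
    exact hz
  · intro z hz
    change t.g (s.g z) = z
    rw [hs.2 z hz, ht.2 z hz]

end

theorem fixg : S_FIXG := by
  intro b k N c R P Φ Hf C hF i
  have hc : c i ∈ ball (c i) 4 := mem_ball_self (by norm_num)
  have hc2 : c i ∈ ball (c i) 2 := mem_ball_self (by norm_num)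
  have hone : FixK c P i TriK.one := ⟨hF.one _ isOpen_ball (ball4_sub hF i), fun _ _ => rfl⟩
  refine ⟨?_, hone, fun t s ht hs => fix_comp hF ht hs, ?_, ?_⟩
  · intro t ht
    refine ⟨ht.1, c i, hc2, ?_⟩
    rw [ht.2 _ hc]
    exact ball2_sub c i hc2
  · intro t ht
    obtain ⟨s, U', U'', hs, htU', hU''o, hcU'', hU''s, hm, he⟩ := hF.inv _ _ ht.1 (c i) hc
    rw [ht.2 _ hc] at htU'
    have e1 : s.g (t.g (c i)) = c i := (he (c i) hcU'').1
    rw [ht.2 _ hc] at e1
    obtain ⟨s', V, hs', hVo, hcV, hVU', hsV⟩ := hF.ext i (c i) hc2 U' s hs htU'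
      (by rw [e1]; exact ball2_sub c i hc2)
    obtain ⟨-, -, ⟨hsg, hsA, hsβ⟩, -⟩ := hF.holo _ _ hs'
    obtain ⟨-, -, ⟨htg, htA, htβ⟩, -⟩ := hF.holo _ _ ht.1
    have hnh : ∀ᶠ y in 𝓝 (c i), y ∈ V ∧ y ∈ U'' ∧ y ∈ ball (c i) 4 := by
      filter_upwards [hVo.mem_nhds hcV, hU''o.mem_nhds hcU'', isOpen_ball.mem_nhds hc]
        with y h1 h2 h3 using ⟨h1, h2, h3⟩
    have hid : EqOn s'.g id (ball (c i) 4) := by
      refine Pool.Agent.Helper35.SP.idt hsg differentiableOn_id hc ?_
      filter_upwards [hnh] with y hy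
      rw [(hsV y hy.1).1]
      have := (he y hy.2.1).1
      change s.g (t.g y) = y at this
      rwa [ht.2 y hy.2.2] at this
    have hAA : ∀ z ∈ ball (c i) 4, s'.A z * t.A z = 1 := by
      intro z hz
      ext p q
      have h1 : EqOn (fun z => (s'.A z * t.A z) p q) (fun _ => (1 : Matrix (Fin k) (Fin k) ℂ) p q)
          (ball (c i) 4) := by
        refine Pool.Agent.Helper35.SP.idt (diff_mul hsA htA p q) (differentiableOn_const _) hc ?_
        filter_upwards [hnh] with y hy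
        rw [(hsV y hy.1).2.1]
        have := (he y hy.2.1).2.1
        change s.A (t.g y) * t.A y = 1 at this
        rw [ht.2 y hy.2.2] at this
        rw [this]
      exact h1 hz
    have hβ : ∀ z ∈ ball (c i) 4, s'.A z *ᵥ t.β z + s'.β z = 0 := by
      intro z hz
      have h1 : EqOn (fun z => s'.A z *ᵥ t.β z + s'.β z) (fun _ => (0 : Cn k)) (ball (c i) 4) := by
        refine Pool.Agent.Helper35.SP.idt ((diff_mulVec hsA htβ).add hsβ)
          (differentiableOn_const _) hc ?_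
        filter_upwards [hnh] with y hy
        rw [(hsV y hy.1).2.1, (hsV y hy.1).2.2]
        have := (he y hy.2.1).2.2
        change s.A (t.g y) *ᵥ t.β y + s.β (t.g y) = 0 at this
        rw [ht.2 y hy.2.2] at this
        rw [this]
      exact h1 hz
    refine ⟨s', ⟨hs', fun z hz => hid hz⟩, fun z hz => ⟨hAA z hz, ?_, hβ z hz⟩⟩
    exact mul_eq_one_comm.1 (hAA z hz)
  · intro t ht m
    induction m with
    | zero => exact ⟨TriK.one, hone, fun z _ => by rw [pow_zero]; rfl⟩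
    | succ m ih =>
      obtain ⟨s, hs, hsA⟩ := ih
      refine ⟨t.comp s, fix_comp hF ht hs, fun z hz => ?_⟩
      change t.A (s.g z) * s.A z = t.A z ^ (m + 1)
      rw [hs.2 z hz, hsA z hz, pow_succ']

end Pool.Agent.Helper8.RK
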