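import Pool.Agent.Helper8.RK.FIXG

/-! Packet MZK of the project RK: powers of the Jacobians depend only on the base map. -/

open Complex Metric Set Filter Topology
open scoped ContDiff ComplexConjugate Matrix ComplexOrder

namespace Pool.Agent.Helper8.RK

open Pool.Agent.Helper95.Lin Pool.Agent.Helper10.SP Pool.Agent.Helper95.RK Pool.Agent.Helper45.RK

theorem diff_det {b k : ℕ} {U : Set (Cn b)} {A : Cn b → Matrix (Fin k) (Fin k) ℂ}
    (hA : ∀ i j, DifferentiableOn ℂ (fun z => A z i j) U) :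
    DifferentiableOn ℂ (fun z => (A z).det) U := by
  simp only [Matrix.det_apply]
  refine DifferentiableOn.fun_sum fun σ _ => ?_
  have h7 : (fun z => Equiv.Perm.sign σ • ∏ x, A z (σ x) x) =
      fun z => (((Equiv.Perm.sign σ : ℤ) : ℂ)) * ∏ x, A z (σ x) x := by
    funext z
    rw [Units.smul_def, zsmul_eq_mul]
  rw [h7]
  refine (differentiableOn_const _).mul ?_
  have h8 : ∀ s : Finset (Fin k), DifferentiableOn ℂ (fun z => ∏ x ∈ s, A z (σ x) x) U := by
    intro s
    classical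
    induction s using Finset.induction_on with
    | empty => simpa using differentiableOn_const (1 : ℂ)
    | insert a s ha ih =>
      have h9 : (fun z => ∏ x ∈ insert a s, A z (σ x) x) =
          fun z => A z (σ a) a * ∏ x ∈ s, A z (σ x) x := by
        funext z
        rw [Finset.prod_insert ha]
      rw [h9]
      exact (hA (σ a) a).mul ih
  exact h8 Finset.univ

theorem mzk (hGFIN : S_GFINK) (hROOT : S_ROOTK) : S_MZK := by
  intro b k N c R P Φ Hf C hF hD
  obtain ⟨n, s, hG⟩ := hGFIN c R P Φ Hf C hF hD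
  obtain ⟨m₀, hm₀, hroot⟩ := hROOT c R P Φ Hf C hF hD
  have h4R : ∀ i, ball (c i) 4 ⊆ Bd c R := ball4_sub hF
  have h24 : ∀ i, ball (c i) (2 : ℝ) ⊆ ball (c i) 4 := fun i => ball_subset_ball (by norm_num)
  have h22 : ∀ i, ball (c i) (2 : ℝ) ⊆ Bd c 2 := ball2_sub c
  -- (1) the fibre parts
  have key : ∀ i t t', BigK c P i t → BigK c P i t' → (∀ z ∈ ball (c i) 4, t.g z = t'.g z) →
      ∀ z ∈ ball (c i) 4, (t.A z).det ^ m₀ = (t'.A z).det ^ m₀ := by
    intro i t t' ht ht' hg
    obtain ⟨hPt, -⟩ := ht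
    obtain ⟨hPt', z₀, hz₀, hgz₀⟩ := ht'
    obtain ⟨-, -, ⟨htg, hta, -⟩, htne⟩ := hF.holo _ _ hPt
    obtain ⟨-, -, ⟨-, hta', -⟩, htne'⟩ := hF.holo _ _ hPt'
    obtain ⟨r, U', U'', hPr, hU', hU''o, hzU'', hU''s, hmaps, hcomp⟩ :=
      hF.inv _ _ hPt' z₀ (h24 i hz₀)
    have hmaps' : MapsTo t.g U'' U' := by
      intro z hz
      rw [hg z (hU''s hz)]
      exact hmaps hz
    have hPc : P U'' (r.comp t) := hF.comp U' (ball (c i) 4) U'' r t hPr hPt hU''o hU''s hmaps'
    have hcg : ∀ z ∈ U'', (r.comp t).g z = z := by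
      intro z hz
      have h1 := (hcomp z hz).1
      show r.g (t.g z) = z
      rw [hg z (hU''s hz)]
      exact h1
    have hca : ∀ z ∈ U'', ((r.comp t).A z).det * (t'.A z).det = (t.A z).det := by
      intro z hz
      have h1 : r.A (t'.g z) * t'.A z = 1 := (hcomp z hz).2.1
      have h2 : (r.A (t'.g z)).det * (t'.A z).det = 1 := by
        rw [← Matrix.det_mul, h1, Matrix.det_one]
      show (r.A (t.g z) * t.A z).det * (t'.A z).det = (t.A z).det
      rw [hg z (hU''s hz), Matrix.det_mul]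
      calc (r.A (t'.g z)).det * (t.A z).det * (t'.A z).det
          = ((r.A (t'.g z)).det * (t'.A z).det) * (t.A z).det := by ring
        _ = (t.A z).det := by rw [h2, one_mul]
    obtain ⟨u, V, hPu, hVo, hzV, hVs, hueq⟩ := hF.ext i z₀ hz₀ U'' (r.comp t) hPc hzU''
      (by rw [hcg z₀ hzU'']; exact h22 i hz₀)
    obtain ⟨-, -, ⟨hug, -, -⟩, -⟩ := hF.holo _ _ hPu
    have huid : EqOn u.g id (ball (c i) 4) := by
      refine Pool.Agent.Helper35.SP.idt hug differentiableOn_id (h24 i hz₀) ?_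
      filter_upwards [hVo.mem_nhds hzV] with z hz
      rw [(hueq z hz).1, hcg z (hVs hz)]
      rfl
    have hu1 := hroot i u ⟨hPu, fun z hz => huid hz⟩
    have hloc : (fun z => (t.A z).det ^ m₀) =ᶠ[𝓝 z₀] fun z => (t'.A z).det ^ m₀ := by
      filter_upwards [hVo.mem_nhds hzV] with z hz
      have h1 := hca z (hVs hz)
      rw [← (hueq z hz).2.1] at h1
      have h2 : (u.A z).det ^ m₀ = 1 := by
        rw [← Matrix.det_pow, hu1 z (hU''s (hVs hz)), Matrix.det_one]
      rw [← h1, mul_pow, h2, one_mul]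
    exact Pool.Agent.Helper35.SP.idt ((diff_det hta).pow m₀) ((diff_det hta').pow m₀)
      (h24 i hz₀) hloc
  have key2 : ∀ i t t', BigK c P i t → BigK c P i t' → (∀ z ∈ ball (c i) 4, t.g z = t'.g z) →
      ∀ z ∈ ball (c i) 4, JtK t z ^ m₀ = JtK t' z ^ m₀ := by
    intro i t t' ht ht' hg z hz
    have h1 : fderiv ℂ t.g z = fderiv ℂ t'.g z := by
      apply Filter.EventuallyEq.fderiv_eq
      filter_upwards [isOpen_ball.mem_nhds hz] with y hy using hg y hy
    unfold JtK
    rw [mul_pow, mul_pow, h1, key i t t' ht ht' hg z hz]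
  -- (2) fixed points
  have key3 : ∀ i t, BigK c P i t → ∀ z ∈ ball (c i) 2, t.g z = z →
      JtK t z ^ (m₀ * (n i).factorial) = 1 := by
    intro i t ht z hz hfix
    have hPt := ht.1
    obtain ⟨-, -, ⟨htg, hta, -⟩, htne⟩ := hF.holo _ _ hPt
    have hz4 := h24 i hz
    have htgd : DifferentiableAt ℂ t.g z := htg.differentiableAt (isOpen_ball.mem_nhds hz4)
    have hpow : ∀ p : ℕ, ∃ u : TriK b k, P (ball (c i) 4) u ∧ u.g z = z ∧
        JtK u z = JtK t z ^ p := by
      intro p
      induction p with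
      | zero =>
        refine ⟨TriK.one, hF.one _ isOpen_ball (h4R i), rfl, ?_⟩
        unfold JtK
        show (fderiv ℂ (id : Cn b → Cn b) z).det * (1 : Matrix (Fin k) (Fin k) ℂ).det = _
        rw [fderiv_id, pow_zero, Matrix.det_one, mul_one]
        simp [ContinuousLinearMap.det]
      | succ p ih =>
        obtain ⟨u, hPu, huz, hJ⟩ := ih
        obtain ⟨-, -, ⟨hug, -, -⟩, -⟩ := hF.holo _ _ hPu
        have hU : IsOpen (ball (c i) 4 ∩ u.g ⁻¹' ball (c i) 4) :=
          hug.continuousOn.isOpen_inter_preimage isOpen_ball isOpen_ball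
        have hPc : P (ball (c i) 4 ∩ u.g ⁻¹' ball (c i) 4) (t.comp u) :=
          hF.comp _ _ _ t u hPt hPu hU inter_subset_left (fun y hy => hy.2)
        have hzU : z ∈ ball (c i) 4 ∩ u.g ⁻¹' ball (c i) 4 := ⟨hz4, by
          rw [mem_preimage, huz]; exact hz4⟩
        have hcz : (t.comp u).g z = z := by
          show t.g (u.g z) = z
          rw [huz, hfix]
        obtain ⟨u', V, hPu', hVo, hzV, -, hueq⟩ := hF.ext i z hz _ (t.comp u) hPc hzU
          (by rw [hcz]; exact h22 i hz)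
        refine ⟨u', hPu', by rw [(hueq z hzV).1, hcz], ?_⟩
        have hugd : DifferentiableAt ℂ u.g z := hug.differentiableAt (isOpen_ball.mem_nhds hz4)
        have h1 : fderiv ℂ u'.g z = (fderiv ℂ t.g z).comp (fderiv ℂ u.g z) := by
          have h2 : u'.g =ᶠ[𝓝 z] t.g ∘ u.g := by
            filter_upwards [hVo.mem_nhds hzV] with y hy using (hueq y hy).1
          rw [h2.fderiv_eq, fderiv_comp z (by rw [huz]; exact htgd) hugd, huz]
        have h3 : (u'.A z).det = (t.A z).det * (u.A z).det := by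
          rw [(hueq z hzV).2.1]
          show (t.A (u.g z) * u.A z).det = _
          rw [huz, Matrix.det_mul]
        have h4 : (fderiv ℂ u'.g z).det = (fderiv ℂ t.g z).det * (fderiv ℂ u.g z).det := by
          rw [h1]
          exact LinearMap.det_comp _ _
        unfold JtK at hJ ⊢
        rw [h3, h4, pow_succ, ← hJ]
        ring
    choose u hPu huz hJ using hpow
    have hbig : ∀ p, BigK c P i (u p) := fun p => ⟨hPu p, z, hz, by
      rw [huz p]
      exact h22 i hz⟩
    choose l hl using fun p => hG.cov i (u p) (hbig p)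
    obtain ⟨p, q, hpq, hkpq⟩ : ∃ p q : Fin (n i + 1), p < q ∧ l p = l q := by
      obtain ⟨p, q, hne, h⟩ := Fintype.exists_ne_map_eq_of_card_lt
        (fun p : Fin (n i + 1) => l (p : ℕ)) (by simp)
      rcases lt_or_gt_of_ne hne with h1 | h1
      · exact ⟨p, q, h1, h⟩
      · exact ⟨q, p, h1, h.symm⟩
    have hsame : ∀ y ∈ ball (c i) 4, (u (q : ℕ)).g y = (u (p : ℕ)).g y := by
      intro y hy
      rw [hl _ y hy, hl _ y hy, hkpq]
    have h1 := key2 i _ _ (hbig q) (hbig p) hsame z hz4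
    rw [hJ, hJ, ← pow_mul, ← pow_mul] at h1
    have hJne : JtK t z ≠ 0 := by
      unfold JtK
      exact mul_ne_zero (hF.pot _ _ hPt z hz4).1 (htne z hz4).2
    have hpq' : (p : ℕ) < q := hpq
    have h2 : JtK t z ^ (((q : ℕ) - p) * m₀) = 1 := by
      have h3 : (q : ℕ) * m₀ = ((q : ℕ) - p) * m₀ + p * m₀ := by
        rw [← Nat.add_mul, Nat.sub_add_cancel hpq'.le]
      rw [h3, pow_add] at h1
      exact mul_right_cancel₀ (pow_ne_zero _ hJne) (by rw [h1, one_mul])
    have hdvd : ((q : ℕ) - p) ∣ (n i).factorial :=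
      Nat.dvd_factorial (by omega) (by have := q.2; omega)
    obtain ⟨d, hd⟩ := hdvd
    rw [hd, show m₀ * (((q : ℕ) - p) * d) = ((q : ℕ) - p) * m₀ * d by ring, pow_mul, h2,
      one_pow]
  refine ⟨m₀ * ∏ i, (n i).factorial, ?_, fun j => ⟨?_, ?_⟩⟩
  · exact Nat.mul_pos hm₀ (Finset.prod_pos fun i _ => Nat.factorial_pos _)
  · intro i t t' ht ht' hg z hz
    rw [Nat.mul_assoc, pow_mul (JtK t z), pow_mul (JtK t' z), key2 i t t' ht ht' hg z hz]
  · intro i t ht z hz hfix
    have h1 := key3 i t ht z hz hfix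
    have hdvd : (n i).factorial ∣ ∏ i, (n i).factorial :=
      Finset.dvd_prod_of_mem _ (Finset.mem_univ i)
    obtain ⟨d, hd⟩ := hdvd
    rw [hd, show m₀ * ((n i).factorial * d) * j = m₀ * (n i).factorial * (d * j) by ring,
      pow_mul, h1, one_pow]

end Pool.Agent.Helper8.RK
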