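import Pool.Agent.Helper36.RK.GoalsI

/-! Packet BTK of the project RK. -/

open Complex Metric Set Filter Topology Matrix
open scoped ContDiff ComplexConjugate ComplexOrder

namespace Pool.Agent.Helper8.RK

open Pool.Agent.Helper95.Lin Pool.Agent.Helper10.SP Pool.Agent.Helper95.RK
open Pool.Agent.Helper36.RK

theorem subBd {b N : ℕ} {c : Fin N → Cn b} {r : ℝ} (i : Fin N) : ball (c i) r ⊆ Bd c r :=
  fun _ hz => mem_iUnion.2 ⟨i, hz⟩

/-- The data of BTR for a map of the pseudogroup. -/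
theorem perQ {b k N : ℕ} {c : Fin N → Cn b} {P : Set (Cn b) → TriK b k → Prop}
    {lam : Fin (2 * k) → Cn b → Cn k} {Om : Fin N → Matrix (Fin (2 * k)) (Fin (2 * k)) ℝ}
    (hPer : PerK c P lam) (hPol : PolK c P lam Om) {U : Set (Cn b)} {t : TriK b k} (ht : P U t)
    {z : Cn b} (hz : z ∈ U) {i j : Fin N} (hi : z ∈ ball (c i) 2) (hj : t.g z ∈ ball (c j) 2) :
    ∃ Q : Matrix (Fin (2 * k)) (Fin (2 * k)) ℝ, Q.det ≠ 0 ∧ Q * Om i * Q.transpose = Om j ∧
      ∀ᶠ z' in 𝓝 z, t.A z' * Lm lam z' = Lm lam (t.g z') * toC Q := by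
  obtain ⟨Q, U', hQ, hU', hzU', -, hQ2⟩ := hPer.trans U t ht z hz (subBd i hi) (subBd j hj)
  have hev : ∀ᶠ z' in 𝓝 z, ∀ j, t.A z' *ᵥ lam j z' = ∑ l, ((Q l j : ℝ) : ℂ) • lam l (t.g z') := by
    filter_upwards [hU'.mem_nhds hzU'] with z' hz'
    exact hQ2 z' hz'
  refine ⟨Q, hQ, hPol.trans U t ht z hz i j hi hj Q hev, ?_⟩
  filter_upwards [hev] with z' hz'
  ext p q
  have h1 := congrFun (hz' q) p
  simp only [Matrix.mulVec, dotProduct, Finset.sum_apply, Pi.smul_apply, smul_eq_mul] at h1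
  simp only [Matrix.mul_apply, Lm, Matrix.of_apply, toC, Matrix.map_apply]
  rw [h1]
  exact Finset.sum_congr rfl fun l _ => mul_comm _ _

theorem btk (hBTR : S_BTR) : S_BTK := by
  intro b k N c R P Φ Hf C hF lam Om hPer hPol U t ht z hz i j hi hj
  obtain ⟨Q, hQ, hQO, hev⟩ := perQ hPer hPol ht hz hi hj
  obtain ⟨hU, hUR, ⟨hg, hA, hβ⟩, hA0⟩ := hF.holo U t ht
  have h := hBTR (ball (c i) 2) (ball (c j) 2) lam lam (Om i) (Om j) Q (polK hPer hPol i)
    (polK hPer hPol j) hQO t.g t.A z hi hj (hg.differentiableAt (hU.mem_nhds hz))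
    (fun p q => (hA p q).differentiableAt (hU.mem_nhds hz)) hev
  exact ⟨h.2.1, h.2.2.1, h.2.2.2⟩

end Pool.Agent.Helper8.RK
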