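import Pool.Agent.Helper8.RK.KNOR
import Pool.Agent.Helper95.Lin.Basics

/-! Packet KCOM of the project RK. -/

open Complex Metric Set Filter Topology Matrix
open scoped ContDiff ComplexConjugate ComplexOrder

namespace Pool.Agent.Helper8.RK

open Pool.Agent.Helper95.Lin Pool.Agent.Helper10.SP Pool.Agent.Helper95.RK
open Pool.Agent.Helper36.RK

/-- The derivative of `z ↦ dL lam z (V z)` in the direction `v`. -/
noncomputable def ddL {b k : ℕ} (lam : Fin (2 * k) → Cn b → Cn k) (V : Cn b → Cn b) (z v : Cn b) :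
    Matrix (Fin k) (Fin (2 * k)) ℂ :=
  Matrix.of fun p j => (fderiv ℂ (fderiv ℂ (lam j)) z v (V z) +
    fderiv ℂ (lam j) z (fderiv ℂ V z v)) p

theorem der_dL {b k : ℕ} {D : Set (Cn b)} (hD : IsOpen D) {lam : Fin (2 * k) → Cn b → Cn k}
    (h : ∀ j, DifferentiableOn ℂ (lam j) D) {V : Cn b → Cn b} (hV : DifferentiableOn ℂ V D)
    {z : Cn b} (hz : z ∈ D) (v : Cn b) :
    ∀ p j, HasDerivAt (fun t : ℂ => dL lam (z + t • v) (V (z + t • v)) p j) (ddL lam V z v p j) 0 := by
  intro p j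
  have hnz := hD.mem_nhds hz
  have hc : ContDiffAt ℂ 2 (lam j) z := ((holo_contDiffOn hD (h j)).contDiffAt hnz).of_le
    (by norm_cast)
  have h1 : DifferentiableAt ℂ (fderiv ℂ (lam j)) z :=
    (hc.fderiv_right (m := 1) (by norm_num)).differentiableAt one_ne_zero
  have h2 : DifferentiableAt ℂ V z := hV.differentiableAt hnz
  have h3 := h1.hasFDerivAt.clm_apply h2.hasFDerivAt
  have h4 : HasDerivAt (fun t : ℂ => z + t • v) v 0 := by
    have := ((hasDerivAt_id (0 : ℂ)).smul_const v).const_add z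
    simpa using this
  have h5 : HasFDerivAt (fun y => (fderiv ℂ (lam j) y) (V y))
      ((fderiv ℂ (lam j) z).comp (fderiv ℂ V z) + (fderiv ℂ (fderiv ℂ (lam j)) z).flip (V z))
      (z + (0 : ℂ) • v) := by simpa using h3
  have h6 := h5.comp_hasDerivAt (0 : ℂ) h4
  have h7 := (hasDerivAt_pi.1 h6) p
  have h8 : ddL lam V z v p j = ((fderiv ℂ (lam j) z).comp (fderiv ℂ V z) +
      (fderiv ℂ (fderiv ℂ (lam j)) z).flip (V z)) v p := by
    simp [ddL, add_comm]
  rw [h8]
  exact h7

theorem ddL_symm {b k : ℕ} {D : Set (Cn b)} (hD : IsOpen D) {lam : Fin (2 * k) → Cn b → Cn k}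
    (h : ∀ j, DifferentiableOn ℂ (lam j) D) {V W : Cn b → Cn b}
    {z : Cn b} (hz : z ∈ D) (hVW : fderiv ℂ W z (V z) = fderiv ℂ V z (W z)) :
    ddL lam W z (V z) = ddL lam V z (W z) := by
  ext p j
  have hc : ContDiffAt ℂ 2 (lam j) z :=
    ((holo_contDiffOn hD (h j)).contDiffAt (hD.mem_nhds hz)).of_le (by norm_cast)
  have hs : IsSymmSndFDerivAt ℂ (lam j) z := hc.isSymmSndFDerivAt (by simp)
  simp only [ddL, Matrix.of_apply]
  rw [hs.eq (V z) (W z), hVW]

theorem algKCOM {k m : ℕ} (L LV LW S T : Matrix (Fin k) (Fin m) ℂ) (O ξ η : Matrix (Fin m) (Fin m) ℂ)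
    (a a' : Matrix (Fin k) (Fin k) ℂ) (hξ : O * ξ.transpose = - (ξ * O))
    (hη : O * η.transpose = - (η * O)) (hLV : LV = a * L - L * ξ) (hLW : LW = a' * L - L * η)
    (hO : L * O * L.transpose = 0) (hST : S = T)
    (h1 : S * O * L.transpose + LW * O * LV.transpose +
      (LV * η * O * L.transpose + L * η * O * LV.transpose) = 0)
    (h2 : T * O * L.transpose + LV * O * LW.transpose +
      (LW * ξ * O * L.transpose + L * ξ * O * LW.transpose) = 0) :
    L * (ξ * η - η * ξ) * O * L.transpose = 0 := by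
  have r1 : ∀ X : Matrix (Fin m) (Fin k) ℂ, O * (η.transpose * X) = - (η * (O * X)) := by
    intro X
    rw [← Matrix.mul_assoc, hη, Matrix.neg_mul, Matrix.mul_assoc]
  have r1' : ∀ X : Matrix (Fin m) (Fin k) ℂ, O * (ξ.transpose * X) = - (ξ * (O * X)) := by
    intro X
    rw [← Matrix.mul_assoc, hξ, Matrix.neg_mul, Matrix.mul_assoc]
  have r2 : L * (O * L.transpose) = 0 := by
    rw [← Matrix.mul_assoc]; exact hO
  have r3 : ∀ X : Matrix (Fin k) (Fin k) ℂ, L * (O * (L.transpose * X)) = 0 := by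
    intro X
    have : L * (O * (L.transpose * X)) = (L * (O * L.transpose)) * X := by
      simp only [Matrix.mul_assoc]
    rw [this, r2, Matrix.zero_mul]
  have h3 : (S * O * L.transpose + LW * O * LV.transpose +
      (LV * η * O * L.transpose + L * η * O * LV.transpose)) -
      (T * O * L.transpose + LV * O * LW.transpose +
      (LW * ξ * O * L.transpose + L * ξ * O * LW.transpose)) = 0 := by
    rw [h1, h2, sub_zero]
  rw [hST, hLV, hLW] at h3
  simp only [Matrix.sub_mul, Matrix.mul_sub, Matrix.transpose_sub, Matrix.transpose_mul,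
    Matrix.mul_assoc, r1, r1', r3, Matrix.mul_neg, Matrix.mul_zero] at h3 ⊢
  have h4 := neg_eq_zero.2 h3
  rw [← h4]
  abel

theorem kcom (hALGP : S_ALGP) : S_KCOM := by
  intro b k D lam Om hP V W hV hW hVW ξ η hξ hη
  refine ⟨inSp_comm hξ.1 hη.1, fun z hz => ?_⟩
  have hM := hP.pol z hz
  obtain ⟨-, -, h3, -⟩ := hALGP (Lm lam z) Om hM
  have hdf : ∀ j, DifferentiableAt ℂ (lam j) z := fun j =>
    (hP.holo j).differentiableAt (hP.isOpen.mem_nhds hz)
  have key : ∀ (V : Cn b → Cn b) (ξ : Matrix (Fin (2 * k)) (Fin (2 * k)) ℝ),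
      XiOf D lam Om V ξ → ∃ a : Matrix (Fin k) (Fin k) ℂ,
        dL lam z (V z) = a * Lm lam z - Lm lam z * toC ξ := by
    intro V ξ hξ
    obtain ⟨a, ha⟩ := h3 (dL lam z (V z) + Lm lam z * toC ξ) (by
      have h4 := hξ.2 z hz
      rw [sV] at h4
      rw [Matrix.add_mul, Matrix.add_mul, h4]
      abel)
    exact ⟨a, eq_sub_of_add_eq ha⟩
  obtain ⟨a, ha⟩ := key V ξ hξ
  obtain ⟨a', ha'⟩ := key W η hη
  have key2 : ∀ (V W : Cn b → Cn b) (η : Matrix (Fin (2 * k)) (Fin (2 * k)) ℝ),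
      DifferentiableOn ℂ W D → XiOf D lam Om W η →
      ddL lam W z (V z) * toC Om * (Lm lam z).transpose +
        dL lam z (W z) * toC Om * (dL lam z (V z)).transpose +
      (dL lam z (V z) * toC η * toC Om * (Lm lam z).transpose +
        Lm lam z * toC η * toC Om * (dL lam z (V z)).transpose) = 0 := by
    intro V W η hW hη
    ext p q
    have h5 := der_mul (der_mul (der_dL hP.isOpen hP.holo hW hz (V z)) (der_const (toC Om)))
      (der_tr (der_L hdf (V z))) p q
    have h6 := der_mul (der_mul (der_mul (der_L hdf (V z)) (der_const (toC η)))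
      (der_const (toC Om))) (der_tr (der_L hdf (V z))) p q
    have h7 := der_zero hP.isOpen hz (V z)
      (f := fun y => (dL lam y (W y) * toC Om * (Lm lam y).transpose) p q +
        (Lm lam y * toC η * toC Om * (Lm lam y).transpose) p q)
      (fun y hy => by
        have h8 := hη.2 y hy
        rw [sV] at h8
        rw [h8]
        simp) (h5.add h6)
    simpa using h7
  have hfin := algKCOM (Lm lam z) (dL lam z (V z)) (dL lam z (W z)) (ddL lam W z (V z))
    (ddL lam V z (W z)) (toC Om) (toC ξ) (toC η) a a' (inSpC hξ.1) (inSpC hη.1) ha ha' hM.iso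
    (ddL_symm hP.isOpen hP.holo hz (hVW z hz)) (key2 V W η hW hη) (key2 W V ξ hV hξ)
  rw [toC_sub, toC_mul, toC_mul]
  exact hfin

end Pool.Agent.Helper8.RK
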