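import Pool.Agent.Helper8.RK.BTK
import Pool.Agent.Helper48.SP.MU

/-! Packet MUK of the project RK. -/

open Complex Metric Set Filter Topology Matrix
open scoped ContDiff ComplexConjugate ComplexOrder

namespace Pool.Agent.Helper8.RK

open Pool.Agent.Helper95.Lin Pool.Agent.Helper10.SP Pool.Agent.Helper95.RK
open Pool.Agent.Helper36.RK
open Pool.Agent.Helper48.SP (LM_congr LM_add Bd_mono isOpen_Bd)

/-- The balls are disjoint. -/
theorem idx_unique {b k N : ℕ} {c : Fin N → Cn b} {R : ℝ} {P : Set (Cn b) → TriK b k → Prop}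
    {Φ : Cn b → ℝ} {Hf : Cn b → Matrix (Fin k) (Fin k) ℂ} {C : ℝ} (hF : AFolK c R P Φ Hf C)
    {z : Cn b} {i j : Fin N} (hi : z ∈ ball (c i) 2) (hj : z ∈ ball (c j) 2) : i = j := by
  by_contra hne
  have h1 := hF.sep i j hne
  have h2 := hF.Rge
  have h3 := hF.Cge
  have h4 : dist (c i) (c j) ≤ dist (c i) z + dist z (c j) := dist_triangle _ _ _
  rw [mem_ball] at hi hj
  rw [dist_comm (c i) z, dist_eq_norm (c i) (c j)] at h4
  linarith

theorem det_cj {k : ℕ} (A : Matrix (Fin k) (Fin k) ℂ) : (cj A).det = conj A.det := by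
  unfold cj
  exact (RingHom.map_det (starRingEnd ℂ) A).symm

theorem muk (hDIFP : S_DIFP) (hLDET : S_LDET) (hBTK : S_BTK) : S_MUK := by
  classical
  intro b k N c R P Φ Hf C hF lam Om hPer hPol
  have hN : Nonempty (Fin N) := ⟨⟨0, hF.posN⟩⟩
  let ι : Cn b → Fin N := fun z => if h : ∃ i, z ∈ ball (c i) 2 then h.choose else Classical.arbitrary _
  have hι : ∀ i, ∀ z ∈ ball (c i) 2, ι z = i := by
    intro i z hz
    have h : ∃ i, z ∈ ball (c i) 2 := ⟨i, hz⟩
    have h1 : ι z = h.choose := dif_pos h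
    rw [h1]
    exact idx_unique hF h.choose_spec hz
  have h2R : Bd c 2 ⊆ Bd c R := Bd_mono c (by
    have h1 := hF.Rge
    have h2 := hF.Cge
    linarith)
  have hΦ : ContDiffOn ℝ ∞ Φ (Bd c 2) := hF.smooth.mono h2R
  let μ : Cn b → ℝ := fun z => Real.exp (Φ z) * (Hi lam (Om (ι z)) z).det.re
  have hμ : ∀ i, ∀ z ∈ ball (c i) 2, μ z = Real.exp (Φ z) * (Hi lam (Om i) z).det.re := by
    intro i z hz
    simp only [μ, hι i z hz]
  have hdif := fun i => hDIFP (ball (c i) 2) lam (Om i) (polK hPer hPol i)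
  have hdetS : ∀ i, ContDiffOn ℝ ∞ (fun z => (Hi lam (Om i) z).det.re) (ball (c i) 2) := by
    intro i
    obtain ⟨-, -, -, h4, -, -⟩ := hdif i
    have h5 : ContDiffOn ℝ ∞ (fun z => (Hi lam (Om i) z).det) (ball (c i) 2) := by
      simp only [Matrix.det_apply]
      refine ContDiffOn.sum fun σ _ => ?_
      have h6 : ContDiffOn ℝ ∞ (fun z => ∏ x, Hi lam (Om i) z (σ x) x) (ball (c i) 2) :=
        contDiffOn_prod fun x _ => (h4 _ _).1
      have h7 : (fun z => Equiv.Perm.sign σ • ∏ x, Hi lam (Om i) z (σ x) x) =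
          fun z => (((Equiv.Perm.sign σ : ℤ) : ℂ)) * ∏ x, Hi lam (Om i) z (σ x) x := by
        funext z
        rw [Units.smul_def, zsmul_eq_mul]
      rw [h7]
      exact contDiffOn_const.mul h6
    exact Complex.reCLM.contDiff.comp_contDiffOn h5
  have hpos : ∀ i, ∀ z ∈ ball (c i) 2, 0 < (Hi lam (Om i) z).det.re ∧
      (Hi lam (Om i) z).det.im = 0 := fun i => (hdif i).2.2.2.2.1
  refine ⟨μ, ?_, ?_, ?_, ?_⟩
  · intro z hz
    obtain ⟨i, hi⟩ := mem_iUnion.1 hz
    have h1 : ContDiffAt ℝ ∞ (fun z => Real.exp (Φ z) * (Hi lam (Om i) z).det.re) z :=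
      ((hΦ.contDiffAt ((isOpen_Bd c 2).mem_nhds hz)).exp).mul
        ((hdetS i).contDiffAt (isOpen_ball.mem_nhds hi))
    refine (h1.congr_of_eventuallyEq ?_).contDiffWithinAt
    filter_upwards [isOpen_ball.mem_nhds hi] with y hy
    exact hμ i y hy
  · intro z hz
    obtain ⟨i, hi⟩ := mem_iUnion.1 hz
    rw [hμ i z hi]
    exact mul_pos (Real.exp_pos _) (hpos i z hi).1
  · intro U t ht z hz
    obtain ⟨htP, hU2, hmaps⟩ := ht
    obtain ⟨i, hi⟩ := mem_iUnion.1 (hU2 hz)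
    obtain ⟨j, hj⟩ := mem_iUnion.1 (hmaps hz)
    rw [hμ i z hi, hμ j _ hj]
    obtain ⟨hHi, -, -⟩ := hBTK c R P Φ Hf C hF lam Om hPer hPol U t htP z hz i j hi hj
    obtain ⟨hdet, hpot⟩ := hF.pot U t htP z hz
    have hA0 : (t.A z).det ≠ 0 := ((hF.holo U t htP).2.2.2 z hz).2
    have n1 := norm_pos_iff.2 hA0
    have n2 := norm_pos_iff.2 hdet
    have hd : (Hi lam (Om j) (t.g z)).det.re = ‖(t.A z).det‖ ^ 2 * (Hi lam (Om i) z).det.re := by
      rw [hHi, Matrix.det_mul, Matrix.det_mul, Matrix.det_transpose, det_cj]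
      have e1 : conj (t.A z).det * (Hi lam (Om i) z).det * (t.A z).det =
          ((‖(t.A z).det‖ ^ 2 : ℝ) : ℂ) * (Hi lam (Om i) z).det := by
        have e2 : conj (t.A z).det * (t.A z).det = ((‖(t.A z).det‖ ^ 2 : ℝ) : ℂ) := by
          rw [mul_comm, Complex.mul_conj, Complex.normSq_eq_norm_sq]
        rw [← e2]
        ring
      rw [e1, Complex.re_ofReal_mul]
    rw [hd, hpot, Real.exp_add, Real.exp_add, Real.exp_log (by positivity),
      Real.exp_log (by positivity)]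
    ring
  · intro i z hz j l
    have h1 : (fun y => Real.log (μ y)) =ᶠ[𝓝 z]
        fun y => Φ y + Real.log (Hi lam (Om i) y).det.re := by
      filter_upwards [isOpen_ball.mem_nhds hz] with y hy
      rw [hμ i y hy, Real.log_mul (Real.exp_pos _).ne' (hpos i y hy).1.ne', Real.log_exp]
    rw [LM_congr h1, LM_add isOpen_ball (hΦ.mono (subBd i)) (hdif i).2.2.2.2.2 hz,
      hLDET (ball (c i) 2) lam (Om i) (polK hPer hPol i) z hz j l]
    ring

end Pool.Agent.Helper8.RK
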