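import Pool.Agent.Helper36.RK.GoalsP
import Pool.Agent.Helper39.SP.RLT

/-! Packet RLT0 of the project RK. -/

open Complex Metric Set Filter Topology
open scoped ContDiff ComplexConjugate ComplexOrder

namespace Pool.Agent.Helper8.RK

open Pool.Agent.Helper95.Lin Pool.Agent.Helper10.SP Pool.Agent.Helper95.RK
open Pool.Agent.Helper36.RK Pool.Agent.Helper39.SP

theorem rlt0 (hWIRT : S_WIRT) (hLMF : S_LMF) : S_RLT0 := by
  intro b D hW μ V W hμs hμpos hVd hWd hVW hV0 hW0 z hz
  set ℓ : Cn b → ℂ := fun y => ((Real.log (μ y) : ℝ) : ℂ) with hℓdef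
  have hℓr : ContDiffOn ℝ ∞ (fun y => Real.log (μ y)) D :=
    hμs.log fun y hy => (hμpos y hy).ne'
  have hℓ : ContDiffOn ℝ ∞ ℓ D := Complex.ofRealCLM.contDiff.comp_contDiffOn hℓr
  have hherm := (hLMF D hW (fun y => Real.log (μ y)) hℓr).2.1 z hz
  have hcdb : ∀ V : Cn b → Cn b, DifferentiableOn ℂ V D → ∀ j, cdb j (hh ℓ V) z =
      ∑ i, LM (fun y => Real.log (μ y)) z i j * V z i := by
    intro V hV j
    rw [cdb_hh hWIRT hW hℓ hV j hz]
    rfl
  have hconj : ∀ i j, conj (LM (fun y => Real.log (μ y)) z i j) =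
      LM (fun y => Real.log (μ y)) z j i := by
    intro i j
    exact hherm.apply j i
  have hcd : ∀ V : Cn b → Cn b, DifferentiableOn ℂ V D → (∀ z ∈ D, (hV μ V z).re = 0) →
      ∀ j, cd j (hh ℓ V) z = - ∑ i, LM (fun y => Real.log (μ y)) z j i * conj (V z i) := by
    intro V hV hre j
    rw [cd_of_re hWIRT hW (smooth_hh hWIRT hW hℓ hV) hre j hz, hcdb V hV j, map_sum]
    congr 1
    apply Finset.sum_congr rfl
    intro i _
    rw [map_mul, hconj]
  have hherm2 : ∀ V W : Cn b → Cn b, DifferentiableOn ℂ W D → (∀ z ∈ D, (hV μ W z).re = 0) →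
      ∑ j, V z j * cd j (hh ℓ W) z =
        - hermi (LM (fun y => Real.log (μ y)) z) (V z) (W z) := by
    intro V W hW hre
    unfold hermi
    rw [← Finset.sum_neg_distrib]
    apply Finset.sum_congr rfl
    intro j _
    rw [hcd W hW hre j, mul_neg, Finset.mul_sum]
    congr 1
    apply Finset.sum_congr rfl
    intro i _
    ring
  have hcomm := comm3 hWIRT hW hℓ hWd hVd hVW hz
  rw [hherm2 V W hWd hW0, hherm2 W V hVd hV0] at hcomm
  have hsymm : hermi (LM (fun y => Real.log (μ y)) z) (V z) (W z) =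
      hermi (LM (fun y => Real.log (μ y)) z) (W z) (V z) := by
    simpa using hcomm
  have hcj : conj (hermi (LM (fun y => Real.log (μ y)) z) (V z) (W z)) =
      hermi (LM (fun y => Real.log (μ y)) z) (W z) (V z) := by
    unfold hermi
    simp only [map_sum, map_mul, hconj, Complex.conj_conj]
    rw [Finset.sum_comm]
    apply Finset.sum_congr rfl
    intro i _
    apply Finset.sum_congr rfl
    intro j _
    ring
  rw [← hsymm] at hcj
  exact Complex.conj_eq_iff_im.1 hcj

end Pool.Agent.Helper8.RK
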