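import Pool.Agent.Helper36.RK.GoalsQ
import Pool.Agent.Helper39.SP.RLT
import Pool.Agent.Helper95.RK.Basics

/-! Packet AFQ of the project RK. -/

open Complex Metric Set Filter Topology
open scoped ContDiff ComplexConjugate ComplexOrder

namespace Pool.Agent.Helper8.RK

open Pool.Agent.Helper95.Lin Pool.Agent.Helper10.SP Pool.Agent.Helper95.RK Pool.Agent.Helper16.Abund
open Pool.Agent.Helper36.RK

/-- The real derivative along the fibre. -/
theorem fderiv_fib {b k : ℕ} {f : Cn (b + k) → ℂ} {z : Cn b} {w : Cn k}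
    (hf : DifferentiableAt ℝ f (ptK z w)) (v : Cn k) :
    fderiv ℝ (fun w' : Cn k => f (ptK z w')) w v = fderiv ℝ f (ptK z w) (ptK 0 v) := by
  have h1 : HasFDerivAt (fun w' : Cn k => ptK z w')
      (((ptL b k).comp (ContinuousLinearMap.inr ℂ (Cn b) (Cn k))).restrictScalars ℝ) w := by
    have h2 : (fun w' : Cn k => ptK z w') =
        fun w' => ptK z 0 + ((ptL b k).comp (ContinuousLinearMap.inr ℂ (Cn b) (Cn k))) w' := by
      funext w'
      simp only [ContinuousLinearMap.comp_apply, ContinuousLinearMap.inr_apply, ptL_apply]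
      rw [← ptK_add]
      simp
    rw [h2]
    exact (((ptL b k).comp (ContinuousLinearMap.inr ℂ (Cn b) (Cn k))).restrictScalars
      ℝ).hasFDerivAt.const_add _
  have h3 := (hf.hasFDerivAt.comp w h1).fderiv
  have h4 : (f ∘ fun w' : Cn k => ptK z w') = fun w' : Cn k => f (ptK z w') := rfl
  rw [h4] at h3
  rw [h3]
  rfl

theorem single_natAdd {b k : ℕ} (i : Fin k) (x : ℂ) :
    ptK (0 : Cn b) (Pi.single i x) = Pi.single (Fin.natAdd b i) x := by
  have h1 : (Pi.single i x : Cn k) = x • Pi.single i 1 := by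
    rw [← Pi.single_smul]; simp
  have h2 : (Pi.single (Fin.natAdd b i) x : Cn (b + k)) = x • ef b i := by
    unfold ef
    rw [← Pi.single_smul]; simp
  rw [h1, h2, ef_eq, ← ptK_smul, smul_zero]

theorem cd_fib {b k : ℕ} {f : Cn (b + k) → ℂ} {z : Cn b} {w : Cn k}
    (hf : DifferentiableAt ℝ f (ptK z w)) (i : Fin k) :
    cd i (fun w' : Cn k => f (ptK z w')) w = cd (Fin.natAdd b i) f (ptK z w) := by
  unfold cd
  rw [fderiv_fib hf, fderiv_fib hf, single_natAdd, single_natAdd]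

theorem cdb_fib {b k : ℕ} {f : Cn (b + k) → ℂ} {z : Cn b} {w : Cn k}
    (hf : DifferentiableAt ℝ f (ptK z w)) (i : Fin k) :
    cdb i (fun w' : Cn k => f (ptK z w')) w = cdb (Fin.natAdd b i) f (ptK z w) := by
  unfold cdb
  rw [fderiv_fib hf, fderiv_fib hf, single_natAdd, single_natAdd]

theorem afq (hWIRT : S_WIRT) (hCLQ : S_CLQ) (hGRQ : S_GRQ) (hLAFQ : S_LAFQ) : S_AFQ := by
  intro b k N c R P Φ Hf C H hF hK hFl z hz w a l
  obtain ⟨K, hKb⟩ := hGRQ c R P Φ Hf C H hF hK
  have h2R : Bd c 2 ⊆ Bd c R := iUnion_mono fun i => ball_subset_ball (by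
    have h1 := hF.Rge
    have h2 := hF.Cge
    linarith)
  have hzR : ∀ w : Cn k, ptK z w ∈ tubeK k (Bd c R) := by
    intro w
    change base (ptK z w) ∈ Bd c R
    rw [base_ptK]
    exact h2R hz
  have hoR : IsOpen (Bd c R) := isOpen_iUnion fun _ => isOpen_ball
  have hoT : IsOpen (tubeK k (Bd c R)) := isOpen_tubeK hoR
  have hsm : ContDiffOn ℝ ∞ (fun y => hA H y a l) (tubeK k (Bd c R)) := hK.smooth _ _
  have hptC : ContDiff ℝ ∞ fun w : Cn k => ptK z w := by
    have h2 : (fun w' : Cn k => ptK z w') =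
        fun w' => ptK z 0 + (((ptL b k).comp
          (ContinuousLinearMap.inr ℂ (Cn b) (Cn k))).restrictScalars ℝ) w' := by
      funext w'
      simp only [ContinuousLinearMap.coe_restrictScalars', ContinuousLinearMap.comp_apply,
        ContinuousLinearMap.inr_apply, ptL_apply]
      rw [← ptK_add]
      simp
    rw [h2]
    exact contDiff_const.add (((ptL b k).comp
      (ContinuousLinearMap.inr ℂ (Cn b) (Cn k))).restrictScalars ℝ).contDiff
  have hg : ContDiffOn ℝ ∞ (fun w : Cn k => hA H (ptK z w) a l) univ :=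
    hsm.comp hptC.contDiffOn fun w _ => hzR w
  set d : Fin k → ℂ := fun i => cd a (fun y => Hf y i l) z with hd
  have hlin : Differentiable ℂ fun w : Cn k => -((1 / 2 : ℂ) * ∑ i, d i * w i) := by fun_prop
  have hlinR : ContDiffOn ℝ ∞ (fun w : Cn k => -((1 / 2 : ℂ) * ∑ i, d i * w i)) univ :=
    holo_contDiffOn_real isOpen_univ hlin.differentiableOn
  set G : Cn k → ℂ := fun w => hA H (ptK z w) a l + -((1 / 2 : ℂ) * ∑ i, d i * w i) with hG
  have hGs : ContDiffOn ℝ ∞ G univ := hg.add hlinR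
  have hGc : ContDiffOn ℝ ∞ (fun w => conj (G w)) univ :=
    Complex.conjCLE.contDiff.comp_contDiffOn hGs
  have hdA : ∀ w : Cn k, DifferentiableAt ℝ (fun y => hA H y a l) (ptK z w) := fun w =>
    (hsm.contDiffAt (hoT.mem_nhds (hzR w))).differentiableAt (by simp)
  -- derivatives of the linear part
  have hlcd : ∀ i w, cd i (fun w : Cn k => -((1 / 2 : ℂ) * ∑ i, d i * w i)) w = - d i := by
    intro i w
    rw [Pool.Agent.Helper39.SP.cd_holo (hlin w) i]
    have h1 : HasFDerivAt (fun w : Cn k => -((1 / 2 : ℂ) * ∑ i, d i * w i))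
        (-((1 / 2 : ℂ) • ∑ i, d i • (ContinuousLinearMap.proj (R := ℂ) (φ := fun _ : Fin k => ℂ) i))) w := by
      refine HasFDerivAt.fun_neg (HasFDerivAt.const_mul (HasFDerivAt.fun_sum fun i _ => ?_) _)
      exact ((ContinuousLinearMap.proj (R := ℂ) (φ := fun _ : Fin k => ℂ) i).hasFDerivAt).const_mul (d i)
    rw [h1.fderiv]
    simp [Pi.single_apply]
  have hlcdb : ∀ i w, cdb i (fun w : Cn k => -((1 / 2 : ℂ) * ∑ i, d i * w i)) w = 0 := by
    intro i w
    exact ((hWIRT univ isOpen_univ _ _ hlinR hlinR).2.2.2.2.2).2 hlin.differentiableOn i w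
      (mem_univ w)
  have hadd := (hWIRT univ isOpen_univ _ _ hg hlinR).2.1
  have hCL := fun x hx => hCLQ c R P Φ Hf C H hF hK hFl x hx a
  have hGcd : ∀ i w, cd i G w = 0 := by
    intro i w
    have h1 := (hadd i w (mem_univ w)).1
    rw [hlcd i w, cd_fib (hdA w) i, (hCL _ (hzR w)).1 i l, base_ptK] at h1
    rw [hG, h1, hd]
    ring
  have hGcdb : ∀ m w, cdb m G w = cdb (Fin.natAdd b m) (fun y => hA H y a l) (ptK z w) := by
    intro m w
    have h1 := (hadd m w (mem_univ w)).2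
    rw [hlcdb m w, cdb_fib (hdA w) m] at h1
    rw [hG, h1]
    ring
  have hconj := (hWIRT univ isOpen_univ G G hGs hGs).2.2.2.1
  have hFd : DifferentiableOn ℂ (fun w => conj (G w)) univ := by
    refine ((hWIRT univ isOpen_univ _ _ hGc hGc).2.2.2.2.2).1 fun i w hw => ?_
    rw [(hconj i w hw).2, hGcd i w, map_zero]
  have hFd' : Differentiable ℂ (fun w => conj (G w)) := differentiableOn_univ.1 hFd
  have hgrow : ∃ K : ℝ, ∀ w : Cn k, ‖conj (G w)‖ ≤ K * (1 + ‖w‖) := by
    refine ⟨K + ∑ i, ‖d i‖, fun w => ?_⟩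
    rw [RCLike.norm_conj, hG]
    refine (norm_add_le _ _).trans ?_
    have h1 := hKb z hz w a l
    have h2 : ‖-((1 / 2 : ℂ) * ∑ i, d i * w i)‖ ≤ (∑ i, ‖d i‖) * ‖w‖ := by
      rw [norm_neg, norm_mul]
      have h3 : ‖(1 / 2 : ℂ)‖ ≤ 1 := by norm_num
      have h4 : ‖∑ i, d i * w i‖ ≤ (∑ i, ‖d i‖) * ‖w‖ := by
        refine (norm_sum_le _ _).trans ?_
        rw [Finset.sum_mul]
        refine Finset.sum_le_sum fun i _ => ?_
        rw [norm_mul]
        exact mul_le_mul_of_nonneg_left (norm_le_pi_norm w i) (norm_nonneg _)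
      calc ‖(1 / 2 : ℂ)‖ * ‖∑ i, d i * w i‖ ≤ 1 * ((∑ i, ‖d i‖) * ‖w‖) :=
            mul_le_mul h3 h4 (norm_nonneg _) zero_le_one
        _ = _ := one_mul _
    have h5 : 0 ≤ ∑ i, ‖d i‖ := Finset.sum_nonneg fun i _ => norm_nonneg _
    nlinarith [norm_nonneg w]
  have hmain := hLAFQ (fun w => conj (G w)) hFd' hgrow w
  have hfd : ∀ m, fderiv ℂ (fun w => conj (G w)) 0 (Pi.single m 1) = conj (ccQ H z a m l) := by
    intro m
    have h1 := Pool.Agent.Helper39.SP.cd_holo (hFd' 0) m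
    rw [(hconj m 0 (mem_univ _)).1, hGcdb m 0] at h1
    have h2 : fderiv ℂ (fun w => conj (G w)) 0 (Pi.single m 1) =
        (1 / 2 : ℂ) * conj (cdb (Fin.natAdd b m) (fun y => hA H y a l) (ptK z 0)) := by
      rw [h1]
      ring
    have h3 : conj (1 / 2 : ℂ) = 1 / 2 := by
      rw [map_div₀, map_one, map_ofNat]
    rw [h2, ccQ, map_mul, h3]
  have h6 := congrArg (starRingEnd ℂ) hmain
  simp only [map_add, map_sum, map_mul, Complex.conj_conj, hfd] at h6
  have h7 : G 0 = hA H (ptK z 0) a l := by simp [hG]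
  have h8 : G w = hA H (ptK z w) a l + -((1 / 2 : ℂ) * ∑ i, d i * w i) := rfl
  rw [h7, h8] at h6
  have h9 : hA H (ptK z w) a l = hA H (ptK z 0) a l + (1 / 2 : ℂ) * ∑ i, d i * w i +
      ∑ m, ccQ H z a m l * conj (w m) := by
    linear_combination h6
  exact h9

end Pool.Agent.Helper8.RK
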