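import Pool.Agent.Helper36.RK.GoalsP

/-! Packets KNOR and KCOM of the project RK. -/

open Complex Metric Set Filter Topology Matrix
open scoped ContDiff ComplexConjugate ComplexOrder

namespace Pool.Agent.Helper8.RK

open Pool.Agent.Helper95.Lin Pool.Agent.Helper10.SP Pool.Agent.Helper95.RK
open Pool.Agent.Helper36.RK

theorem toC_mul {l m n : Type*} [Fintype m] (A : Matrix l m ℝ) (B : Matrix m n ℝ) :
    toC (A * B) = toC A * toC B := by
  ext i j
  simp [toC, Matrix.mul_apply]

theorem toC_sub {m n : Type*} (A B : Matrix m n ℝ) : toC (A - B) = toC A - toC B := by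
  ext i j
  simp [toC]

theorem toC_add {m n : Type*} (A B : Matrix m n ℝ) : toC (A + B) = toC A + toC B := by
  ext i j
  simp [toC]

theorem toC_tr {m n : Type*} (A : Matrix m n ℝ) : toC A.transpose = (toC A).transpose := rfl

theorem toC_zero {m n : Type*} : toC (0 : Matrix m n ℝ) = 0 := by
  ext i j
  simp [toC]

theorem inSp_comm {m : ℕ} {Om ξ η : Matrix (Fin m) (Fin m) ℝ} (hξ : InSp Om ξ) (hη : InSp Om η) :
    InSp Om (ξ * η - η * ξ) := by
  have h1 : ξ * Om = - (Om * ξ.transpose) := eq_neg_of_add_eq_zero_left hξ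
  have h2 : η * Om = - (Om * η.transpose) := eq_neg_of_add_eq_zero_left hη
  have h3 : ξ * η * Om = Om * (η * ξ).transpose := by
    rw [Matrix.mul_assoc, h2, Matrix.mul_neg, ← Matrix.mul_assoc, h1, Matrix.neg_mul, neg_neg,
      Matrix.mul_assoc, Matrix.transpose_mul]
  have h4 : η * ξ * Om = Om * (ξ * η).transpose := by
    rw [Matrix.mul_assoc, h1, Matrix.mul_neg, ← Matrix.mul_assoc, h2, Matrix.neg_mul, neg_neg,
      Matrix.mul_assoc, Matrix.transpose_mul]
  change (ξ * η - η * ξ) * Om + Om * (ξ * η - η * ξ).transpose = 0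
  rw [Matrix.sub_mul, h3, h4, Matrix.transpose_sub, Matrix.mul_sub]
  abel

theorem inSpC {m : ℕ} {Om ξ : Matrix (Fin m) (Fin m) ℝ} (hξ : InSp Om ξ) :
    toC Om * (toC ξ).transpose = - (toC ξ * toC Om) := by
  have h1 : Om * ξ.transpose = - (ξ * Om) := eq_neg_of_add_eq_zero_right hξ
  have h2 : toC (Om * ξ.transpose) = toC (- (ξ * Om)) := by rw [h1]
  rw [toC_mul, toC_tr] at h2
  rw [h2]
  have : toC (- (ξ * Om)) = - toC (ξ * Om) := by ext i j; simp [toC]
  rw [this, toC_mul]

/-- Derivative of a product of matrices of functions. -/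
theorem der_mul {l m n : Type*} [Fintype m] {A : ℂ → Matrix l m ℂ} {A' : Matrix l m ℂ}
    {B : ℂ → Matrix m n ℂ} {B' : Matrix m n ℂ}
    (hA : ∀ i j, HasDerivAt (fun t => A t i j) (A' i j) 0)
    (hB : ∀ i j, HasDerivAt (fun t => B t i j) (B' i j) 0) :
    ∀ i j, HasDerivAt (fun t => (A t * B t) i j) ((A' * B 0 + A 0 * B') i j) 0 := by
  intro i j
  have h := HasDerivAt.fun_sum (u := (Finset.univ : Finset m))
    (A := fun p t => A t i p * B t p j) (A' := fun p => A' i p * B 0 p j + A 0 i p * B' p j)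
    (x := 0) (fun p _ => (hA i p).mul (hB p j))
  simp only [Matrix.mul_apply, Matrix.add_apply]
  rw [← Finset.sum_add_distrib]
  exact h

theorem der_const {l m : Type*} (C : Matrix l m ℂ) :
    ∀ i j, HasDerivAt (fun _ : ℂ => C i j) ((0 : Matrix l m ℂ) i j) 0 :=
  fun i j => hasDerivAt_const 0 (C i j)

theorem der_tr {l m : Type*} {A : ℂ → Matrix l m ℂ} {A' : Matrix l m ℂ}
    (hA : ∀ i j, HasDerivAt (fun t => A t i j) (A' i j) 0) :
    ∀ i j, HasDerivAt (fun t => (A t).transpose i j) (A'.transpose i j) 0 :=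
  fun i j => hA j i

theorem der_L {b k : ℕ} {lam : Fin (2 * k) → Cn b → Cn k} {z : Cn b}
    (h : ∀ j, DifferentiableAt ℂ (lam j) z) (v : Cn b) :
    ∀ p j, HasDerivAt (fun t : ℂ => Lm lam (z + t • v) p j) (dL lam z v p j) 0 := by
  intro p j
  have h1 : HasFDerivAt (lam j) (fderiv ℂ (lam j) z) z := (h j).hasFDerivAt
  have h2 : HasDerivAt (fun t : ℂ => z + t • v) v 0 := by
    have := ((hasDerivAt_id (0 : ℂ)).smul_const v).const_add z
    simpa using this
  have h3 : HasDerivAt (fun t : ℂ => lam j (z + t • v)) (fderiv ℂ (lam j) z v) 0 := by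
    have h4 : HasFDerivAt (lam j) (fderiv ℂ (lam j) z) (z + (0 : ℂ) • v) := by simpa using h1
    exact h4.comp_hasDerivAt (0 : ℂ) h2
  exact (hasDerivAt_pi.1 h3) p

/-- If a function vanishes near `z`, the derivative along a line vanishes. -/
theorem der_zero {b : ℕ} {D : Set (Cn b)} (hD : IsOpen D) {z : Cn b} (hz : z ∈ D) (v : Cn b)
    {f : Cn b → ℂ} (hf : ∀ y ∈ D, f y = 0) {d : ℂ}
    (hd : HasDerivAt (fun t : ℂ => f (z + t • v)) d 0) : d = 0 := by
  have hc : Continuous fun t : ℂ => z + t • v := by fun_prop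
  have h1 : ∀ᶠ t : ℂ in 𝓝 0, z + t • v ∈ D := by
    have : (fun t : ℂ => z + t • v) 0 ∈ D := by simpa using hz
    exact hc.continuousAt.eventually_mem (hD.mem_nhds this)
  have h2 : HasDerivAt (fun _ : ℂ => (0 : ℂ)) d 0 :=
    hd.congr_of_eventuallyEq (h1.mono fun t ht => (hf _ ht).symm)
  exact h2.unique (hasDerivAt_const 0 0)

theorem algKNOR {k m : ℕ} (L LW : Matrix (Fin k) (Fin m) ℂ) (O κ η : Matrix (Fin m) (Fin m) ℂ)
    (a : Matrix (Fin k) (Fin k) ℂ) (hη : O * η.transpose = - (η * O)) (hLW : LW = a * L - L * η)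
    (hκ : L * κ * O * L.transpose = 0)
    (hd : LW * κ * O * L.transpose + L * κ * O * LW.transpose = 0) :
    L * (κ * η - η * κ) * O * L.transpose = 0 := by
  have r1 : ∀ X : Matrix (Fin m) (Fin k) ℂ, O * (η.transpose * X) = - (η * (O * X)) := by
    intro X
    rw [← Matrix.mul_assoc, hη, Matrix.neg_mul, Matrix.mul_assoc]
  have r2 : L * (κ * (O * L.transpose)) = 0 := by
    rw [← Matrix.mul_assoc, ← Matrix.mul_assoc]; exact hκ
  have r3 : ∀ X : Matrix (Fin k) (Fin k) ℂ, L * (κ * (O * (L.transpose * X))) = 0 := by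
    intro X
    have : L * (κ * (O * (L.transpose * X))) = (L * (κ * (O * L.transpose))) * X := by
      simp only [Matrix.mul_assoc]
    rw [this, r2, Matrix.zero_mul]
  rw [hLW] at hd
  simp only [Matrix.sub_mul, Matrix.mul_sub, Matrix.transpose_sub, Matrix.transpose_mul,
    Matrix.mul_assoc, r1, r2, r3, Matrix.mul_neg, Matrix.mul_zero] at hd ⊢
  rw [← hd]
  abel

theorem knor (hALGP : S_ALGP) : S_KNOR := by
  intro b k D lam Om hP W hW η κ hη hκ
  refine ⟨inSp_comm hκ.1 hη.1, fun z hz => ?_⟩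
  have hM := hP.pol z hz
  obtain ⟨-, -, h3, -⟩ := hALGP (Lm lam z) Om hM
  have hdf : ∀ j, DifferentiableAt ℂ (lam j) z := fun j =>
    (hP.holo j).differentiableAt (hP.isOpen.mem_nhds hz)
  obtain ⟨a, ha⟩ := h3 (dL lam z (W z) + Lm lam z * toC η) (by
    have h4 := hη.2 z hz
    rw [sV] at h4
    rw [Matrix.add_mul, Matrix.add_mul, h4]
    abel)
  have hLW : dL lam z (W z) = a * Lm lam z - Lm lam z * toC η := eq_sub_of_add_eq ha
  have hd : dL lam z (W z) * toC κ * toC Om * (Lm lam z).transpose +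
      Lm lam z * toC κ * toC Om * (dL lam z (W z)).transpose = 0 := by
    ext p q
    have h5 := der_mul (der_mul (der_mul (der_L hdf (W z)) (der_const (toC κ)))
      (der_const (toC Om))) (der_tr (der_L hdf (W z))) p q
    have h6 := der_zero hP.isOpen hz (W z)
      (f := fun y => (Lm lam y * toC κ * toC Om * (Lm lam y).transpose) p q)
      (fun y hy => by rw [hκ.2 y hy]; rfl) h5
    simpa using h6
  have hfin := algKNOR (Lm lam z) (dL lam z (W z)) (toC Om) (toC κ) (toC η) a (inSpC hη.1) hLW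
    (hκ.2 z hz) hd
  rw [toC_sub, toC_mul, toC_mul]
  exact hfin

end Pool.Agent.Helper8.RK
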