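import Pool.Agent.Helper36.RK.GoalsQ
import Pool.Agent.Helper74.Lin.Aff

/-! Packet LAFQ of the project RK. -/

open Complex Metric Set Filter Topology
open scoped ContDiff ComplexConjugate ComplexOrder

namespace Pool.Agent.Helper8.RK

open Pool.Agent.Helper95.Lin Pool.Agent.Helper10.SP Pool.Agent.Helper95.RK
open Pool.Agent.Helper36.RK

theorem lafq : S_LAFQ := by
  rintro k F hF ⟨K, hK⟩ w
  set K' : ℝ := max K 1 * (1 + ‖w‖) with hK'
  have hK1 : (1 : ℝ) ≤ max K 1 := le_max_right _ _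
  have hw0 := norm_nonneg w
  have hK0 : 0 < K' := by positivity
  have hKc : (K' : ℂ) ≠ 0 := by exact_mod_cast hK0.ne'
  have hp : Differentiable ℂ fun ζ : ℂ => (K' : ℂ)⁻¹ * F (ζ • w) := by
    have : Differentiable ℂ fun ζ : ℂ => ζ • w := by fun_prop
    exact (hF.comp this).const_mul _
  obtain ⟨α, β, hαβ⟩ := Pool.Agent.Helper74.Lin.entire_of_linear_growth hp (C := 1) zero_le_one (by
    intro ζ
    rw [norm_mul, norm_inv, Complex.norm_real, Real.norm_of_nonneg hK0.le, inv_mul_le_iff₀ hK0]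
    have h1 := hK (ζ • w)
    have h2 : K * (1 + ‖ζ • w‖) ≤ max K 1 * (1 + ‖ζ • w‖) :=
      mul_le_mul_of_nonneg_right (le_max_left _ _) (by positivity)
    have h3 : ‖ζ • w‖ = ‖ζ‖ * ‖w‖ := norm_smul _ _
    rw [h3] at h1 h2
    refine h1.trans (h2.trans ?_)
    rw [hK', mul_assoc]
    refine mul_le_mul_of_nonneg_left ?_ (by positivity)
    have h4 := norm_nonneg ζ
    nlinarith)
  have hF2 : ∀ ζ : ℂ, F (ζ • w) = K' * α + (K' * β) * ζ := by
    intro ζ
    have := hαβ ζ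
    rw [inv_mul_eq_iff_eq_mul₀ hKc] at this
    rw [this]
    ring
  have h0 : F 0 = K' * α := by
    have := hF2 0
    simpa using this
  have h1 : F w = K' * α + K' * β := by
    have := hF2 1
    simpa using this
  have hd1 : HasDerivAt (fun ζ : ℂ => F (ζ • w)) (fderiv ℂ F 0 w) 0 := by
    have e1 : HasDerivAt (fun ζ : ℂ => ζ • w) ((1 : ℂ) • w) 0 :=
      (hasDerivAt_id (0 : ℂ)).smul_const w
    have e2 : HasFDerivAt F (fderiv ℂ F 0) ((0 : ℂ) • w) := by
      rw [zero_smul]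
      exact (hF 0).hasFDerivAt
    have e3 := e2.comp_hasDerivAt (0 : ℂ) e1
    rw [one_smul] at e3
    exact e3
  have hd2 : HasDerivAt (fun ζ : ℂ => F (ζ • w)) (K' * β) 0 := by
    have e1 : (fun ζ : ℂ => F (ζ • w)) = fun ζ : ℂ => K' * α + (K' * β) * ζ := funext hF2
    rw [e1]
    have e2 := ((hasDerivAt_id (0 : ℂ)).const_mul ((K' : ℂ) * β)).const_add ((K' : ℂ) * α)
    simpa using e2
  have h2 : fderiv ℂ F 0 w = K' * β := hd1.unique hd2
  have h3 : w = ∑ m, w m • (Pi.single m 1 : Cn k) := by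
    ext i
    simp [Finset.sum_apply, Pi.single_apply]
  have h4 : fderiv ℂ F 0 w = ∑ m, fderiv ℂ F 0 (Pi.single m 1) * w m := by
    conv_lhs => rw [h3]
    rw [map_sum]
    refine Finset.sum_congr rfl fun m _ => ?_
    rw [map_smul, smul_eq_mul, mul_comm]
  rw [← h4, h2, h0, h1]

end Pool.Agent.Helper8.RK
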